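import Pool.Agent.Lib_helper66.NonrepSubdiv

/-!
# Nonrepetitive subdivisions with few division vertices

Every finite graph `G` has a subdivision with `π ≤ 6` in which every edge receives exactly
`2 ⌈log₂ π(G)⌉ + 1` division vertices.
-/

set_option autoImplicit false

namespace Pool.Agent.Results.MP_4d584d_co.NonrepetitiveSubdivisions

/-- A vertex colouring `c` of a graph `H` is nonrepetitive if there is no path `v₀ v₁ … v_{2t-1}` in `H`
(`2t` distinct vertices, consecutive ones adjacent), `t ≥ 1`, with `c(v_i) = c(v_{t+i})` for all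
`i < t`. -/
def Nonrepetitive {V K : Type} (H : SimpleGraph V) (c : V → K) : Prop :=
  ¬ ∃ t : ℕ, 1 ≤ t ∧ ∃ v : ℕ → V,
    (∀ i j : ℕ, i < 2 * t → j < 2 * t → v i = v j → i = j) ∧
    (∀ i : ℕ, i + 1 < 2 * t → H.Adj (v i) (v (i + 1))) ∧
    ∀ i < t, c (v i) = c (v (t + i))

/-- The Thue chromatic number `π(H)`: the least number of colours of a nonrepetitive colouring. -/
noncomputable def thue {V : Type} (H : SimpleGraph V) : ℕ :=
  sInf {k : ℕ | ∃ c : V → Fin k, Nonrepetitive H c}

/-- A subdivision of the graph `G`: a graph `H` on a finite vertex set `W`, an injection `br` of the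
vertices of `G` into those of `H`, and for every edge `vw` of `G` a path `P v w` of `H` from `v` to
`w` (with `P w v` the same path backwards), such that the inner vertices of the paths (the division
vertices) are new and lie on one path only, and every vertex of `H` is a vertex of `G` or lies on a
path, and every edge of `H` is an edge of a path. -/
structure Subdivision {V : Type} (G : SimpleGraph V) where
  /-- the vertices of the subdivision -/
  W : Type
  /-- there are finitely many of them -/
  fin : Finite W
  /-- the subdivision -/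
  H : SimpleGraph W
  /-- the vertices of `G` as vertices of the subdivision -/
  br : V → W
  /-- the path which replaces the edge `vw` -/
  P : ∀ v w : V, G.Adj v w → H.Walk (br v) (br w)
  br_injective : Function.Injective br
  isPath : ∀ (v w : V) (h : G.Adj v w), (P v w h).IsPath
  reverse : ∀ (v w : V) (h : G.Adj v w), P w v h.symm = (P v w h).reverse
  new : ∀ (v w : V) (h : G.Adj v w) (u : V), br u ∈ (P v w h).support → u = v ∨ u = w
  disjoint : ∀ (v w : V) (h : G.Adj v w) (v' w' : V) (h' : G.Adj v' w'), s(v, w) ≠ s(v', w') →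
    ∀ x : W, x ∈ (P v w h).support → x ∈ (P v' w' h').support → ∃ u : V, x = br u
  vertices : ∀ x : W, (∃ u : V, x = br u) ∨
    ∃ (v w : V) (h : G.Adj v w), x ∈ (P v w h).support
  edges : ∀ x y : W, H.Adj x y → ∃ (v w : V) (h : G.Adj v w), s(x, y) ∈ (P v w h).edges

/-- The number of division vertices of the edge `vw`. -/
def Subdivision.division {V : Type} {G : SimpleGraph V} (S : Subdivision G) (v w : V)
    (h : G.Adj v w) : ℕ :=
  (S.P v w h).length - 1

/-- There is a (finite) nonrepetitive colouring of every finite graph with `π` colours. -/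
theorem thue_spec {V : Type} [Finite V] (H : SimpleGraph V) :
    ∃ c : V → Fin (thue H), Nonrepetitive H c := by
  have hne : {k : ℕ | ∃ c : V → Fin k, Nonrepetitive H c}.Nonempty := by
    have := Fintype.ofFinite V
    refine ⟨Fintype.card V, Fintype.equivFin V, ?_⟩
    rintro ⟨t, ht, v, hinj, -, hc⟩
    have h1 := (Fintype.equivFin V).injective (hc 0 (by omega))
    have h2 := hinj 0 (t + 0) (by omega) (by omega) h1
    omega
  exact Nat.sInf_mem hne

/-- A sequence of consecutively adjacent vertices is a walk. -/
theorem exists_walk {W : Type} (H : SimpleGraph W) (g : ℕ → W) (M : ℕ)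
    (h : ∀ i < M, H.Adj (g i) (g (i + 1))) :
    ∃ p : H.Walk (g 0) (g M), p.support = (List.range (M + 1)).map g ∧
      p.edges = (List.range M).map (fun i => s(g i, g (i + 1))) := by
  induction M with
  | zero => exact ⟨SimpleGraph.Walk.nil, by simp, by simp⟩
  | succ M ih =>
    obtain ⟨p, hp, hpe⟩ := ih (fun r hr => h r (by omega))
    refine ⟨p.concat (h M (by omega)), ?_, ?_⟩
    · rw [SimpleGraph.Walk.support_concat, hp, List.range_succ (n := M + 1), List.map_append]
      simp
    · rw [SimpleGraph.Walk.edges_concat, hpe, List.range_succ (n := M), List.map_append]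
      simp

/-- A nonrepetitive colouring has no path coloured by a square. -/
theorem walk_of_nonrep {V K : Type} {H : SimpleGraph V} {c : V → K} (hc : Nonrepetitive H c)
    (x y : V) (p : H.Walk x y) (hp : p.IsPath) (s : List K) (hs : s ≠ []) :
    p.support.map c ≠ s ++ s := by
  intro hsq
  apply hc
  have ht1 : 1 ≤ s.length := List.length_pos_of_ne_nil hs
  have hlen : p.length + 1 = 2 * s.length := by
    have := congrArg List.length hsq
    rw [List.length_map, SimpleGraph.Walk.length_support, List.length_append] at this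
    omega
  refine ⟨s.length, ht1, fun i => p.getVert i, ?_, fun i hi => p.adj_getVert_succ (by omega), ?_⟩
  · intro i j hi hj hij
    exact hp.getVert_injOn (by simp only [Set.mem_ofPred_eq]; omega)
      (by simp only [Set.mem_ofPred_eq]; omega) hij
  · intro i hi
    have h1 : (p.support.map c)[i]'(by
        rw [List.length_map, SimpleGraph.Walk.length_support]; omega) = s[i] := by
      simp only [hsq]
      rw [List.getElem_append_left (by omega)]
    have h2 : (p.support.map c)[s.length+i]'(by
        rw [List.length_map, SimpleGraph.Walk.length_support]; omega) = s[i] := by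
      simp only [hsq]
      rw [List.getElem_append_right (by omega)]
      congr 1
      omega
    rw [← h2] at h1
    rwa [List.getElem_map, List.getElem_map, SimpleGraph.Walk.support_getElem_eq_getVert,
      SimpleGraph.Walk.support_getElem_eq_getVert] at h1

/-- Conversely, a colouring with no path coloured by a square is nonrepetitive. -/
theorem nonrep_of_walk {V K : Type} {H : SimpleGraph V} {c : V → K}
    (hc : ∀ (x y : V) (p : H.Walk x y), p.IsPath → ∀ s : List K, s ≠ [] →
      p.support.map c ≠ s ++ s) : Nonrepetitive H c := by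
  rintro ⟨t, ht, v, hinj, hadj, hcol⟩
  obtain ⟨p, hp, -⟩ := exists_walk H v (2 * t - 1) (fun i hi => hadj i (by omega))
  have h2 : 2 * t - 1 + 1 = t + t := by omega
  rw [h2] at hp
  have hpath : p.IsPath := by
    rw [SimpleGraph.Walk.isPath_def, hp]
    apply List.Nodup.map_on
    · intro r hr r' hr' hrr
      rw [List.mem_range] at hr hr'
      exact hinj r r' (by omega) (by omega) hrr
    · exact List.nodup_range
  apply hc _ _ p hpath ((List.range t).map (fun r => c (v r)))
  · intro h
    have := congrArg List.length h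
    simp only [List.length_map, List.length_range, List.length_nil] at this
    omega
  · rw [hp, List.range_add, List.map_append, List.map_append, List.map_map, List.map_map,
      List.map_map]
    congr 1
    apply List.map_congr_left
    intro r hr
    rw [List.mem_range] at hr
    simp only [Function.comp]
    exact (hcol r hr).symm

open Pool.Agent.Lib66 in
theorem D_adj_lt {n : ℕ} (G : SimpleGraph (Fin n)) (L : ℕ) (hL : 1 ≤ L) (v w : Fin n)
    (h : G.Adj v w) (hvw : v < w) (q : ℕ) (hq : q ≤ L) :
    (H G L).Adj (D L v w q) (D L v w (q + 1)) := by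
  have hne : v ≠ w := hvw.ne
  unfold H
  rw [SimpleGraph.fromRel_adj]
  rcases Nat.eq_zero_or_pos q with h0 | h0
  · subst h0
    have e1 : D L v w 0 = Sum.inl v := D_zero L v w
    have e2 : D L v w (0 + 1) = Sum.inr (v, w, 1) := by
      unfold D
      rw [if_neg (by omega), if_neg (by omega), if_pos hvw]
    rw [e1, e2]
    exact ⟨by simp, Or.inl ⟨v, w, hvw, h, Or.inr (Or.inl ⟨hL, rfl, rfl⟩)⟩⟩
  · have e1 : D L v w q = Sum.inr (v, w, q) := by
      unfold D
      rw [if_neg (by omega), if_neg (by omega), if_pos hvw]
    rcases Nat.lt_or_ge q L with h1 | h1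
    · have e2 : D L v w (q + 1) = Sum.inr (v, w, q + 1) := by
        unfold D
        rw [if_neg (by omega), if_neg (by omega), if_pos hvw]
      rw [e1, e2]
      exact ⟨by simp, Or.inl ⟨v, w, hvw, h, Or.inr (Or.inr (Or.inl ⟨q, h0, h1, rfl, rfl⟩))⟩⟩
    · obtain rfl : q = L := by omega
      rw [e1, D_last]
      exact ⟨by simp, Or.inl ⟨v, w, hvw, h, Or.inr (Or.inr (Or.inr ⟨hL, rfl, rfl⟩))⟩⟩

open Pool.Agent.Lib66 in
theorem D_adj {n : ℕ} (G : SimpleGraph (Fin n)) (L : ℕ) (hL : 1 ≤ L) (v w : Fin n)
    (h : G.Adj v w) (q : ℕ) (hq : q ≤ L) :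
    (H G L).Adj (D L v w q) (D L v w (q + 1)) := by
  rcases lt_or_gt_of_ne h.ne with hvw | hvw
  · exact D_adj_lt G L hL v w h hvw q hq
  · have := D_adj_lt G L hL w v h.symm hvw (L - q) (by omega)
    rw [D_symm L w v h.ne' q (by omega), D_symm L w v h.ne' (q + 1) (by omega)]
    have e1 : L + 1 - q = L - q + 1 := by omega
    have e2 : L + 1 - (q + 1) = L - q := by omega
    rw [e1, e2]
    exact this.symm

open Pool.Agent.Lib66 in
theorem D_inj (L : ℕ) {n : ℕ} (v w : Fin n) (hvw : v ≠ w) (q q' : ℕ) (hq : q ≤ L + 1)
    (hq' : q' ≤ L + 1) (h : D L v w q = D L v w q') : q = q' := by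
  have key : ∀ a b : ℕ, a ≤ L → b = L + 1 → D L v w a = D L v w b → False := by
    rintro a b ha rfl hab
    rw [D_last] at hab
    exact hvw (D_eq_inl L v w w a ha hab).2
  rcases Nat.lt_or_ge L q with h1 | h1
  · rcases Nat.lt_or_ge L q' with h2 | h2
    · omega
    · exact (key q' q h2 (by omega) h.symm).elim
  · rcases Nat.lt_or_ge L q' with h2 | h2
    · exact (key q q' h1 (by omega) h).elim
    · rcases Nat.eq_zero_or_pos q with h0 | h0
      · subst h0
        rw [D_zero] at h
        exact (D_eq_inl L v w v q' h2 h.symm).1.symm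
      · rcases D_det L v w v w q q' h0 h1 h2 h with h3 | h3
        · exact h3.2.2.symm
        · exact (hvw h3.1).elim

open Pool.Agent.Lib66 in
theorem main {V : Type} [Finite V] (G : SimpleGraph V) (m : ℕ) (hm : thue G ≤ 2 ^ m) :
    ∃ S : Subdivision G, (∀ (v w : V) (h : G.Adj v w), S.division v w h = 2 * m + 1) ∧
      thue S.H ≤ 6 := by
  classical
  obtain ⟨c, hc⟩ := thue_spec G
  let e := Finite.equivFin V
  let G' : SimpleGraph (Fin (Nat.card V)) := G.comap e.symm
  have hG : ∀ v w : V, G.Adj v w → G'.Adj (e v) (e w) := by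
    intro v w h
    simpa [G', SimpleGraph.comap_adj] using h
  have hc' : Nonrepetitive G' (fun x => c (e.symm x)) := by
    rintro ⟨t, ht, v, hinj, hadj, hcol⟩
    exact hc ⟨t, ht, fun i => e.symm (v i),
      fun i j hi hj hij => hinj i j hi hj (e.symm.injective hij), fun i hi => hadj i hi, hcol⟩
  obtain ⟨c₂, hc₂⟩ := Pool.Agent.Lib66.main m hm G' _ (walk_of_nonrep hc')
  set L := 2 * m + 1 with hLdef
  have hL : 1 ≤ L := by omega
  let pt : V → V → ℕ → Fin (Nat.card V) ⊕ (Fin (Nat.card V) × Fin (Nat.card V) × ℕ) :=
    fun v w q => D L (e v) (e w) q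
  let p : Fin (Nat.card V) ⊕ (Fin (Nat.card V) × Fin (Nat.card V) × ℕ) → Prop := fun x =>
    (∃ u : V, x = Sum.inl (e u)) ∨ ∃ v w : V, G.Adj v w ∧ ∃ q, q ≤ L + 1 ∧ x = pt v w q
  let W := {x // p x}
  have hfin : Finite W := by
    have h1 : {x | p x} ⊆ (Set.range (fun u : V => Sum.inl (e u))) ∪
        (Set.range (fun z : V × V × Fin (L + 2) => pt z.1 z.2.1 z.2.2)) := by
      rintro x (⟨u, rfl⟩ | ⟨v, w, -, q, hq, rfl⟩)
      · exact Or.inl ⟨u, rfl⟩
      · exact Or.inr ⟨(v, w, ⟨q, by omega⟩), rfl⟩
    exact (((Set.finite_range _).union (Set.finite_range _)).subset h1).to_subtype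
  let H₂ : SimpleGraph W := (H G' L).comap Subtype.val
  let br : V → W := fun u => ⟨Sum.inl (e u), Or.inl ⟨u, rfl⟩⟩
  let ptW : ∀ v w : V, G.Adj v w → ℕ → W := fun v w h q =>
    if hq : q ≤ L + 1 then ⟨pt v w q, Or.inr ⟨v, w, h, q, hq, rfl⟩⟩ else br v
  have hptW : ∀ (v w : V) (h : G.Adj v w) (q : ℕ), q ≤ L + 1 → (ptW v w h q).1 = pt v w q := by
    intro v w h q hq
    simp only [ptW, dif_pos hq]
  have hex : ∀ (v w : V) (h : G.Adj v w), ∃ P : H₂.Walk (br v) (br w),
      P.support = (List.range (L + 2)).map (ptW v w h) ∧
      P.edges = (List.range (L + 1)).map (fun i => s(ptW v w h i, ptW v w h (i + 1))) := by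
    intro v w h
    obtain ⟨P, hP, hPe⟩ := exists_walk H₂ (ptW v w h) (L + 1) (by
      intro i hi
      show (H G' L).Adj (ptW v w h i).1 (ptW v w h (i + 1)).1
      rw [hptW v w h i (by omega), hptW v w h (i + 1) (by omega)]
      exact D_adj G' L hL (e v) (e w) (hG v w h) i (by omega))
    have h0 : ptW v w h 0 = br v := by
      apply Subtype.ext
      rw [hptW v w h 0 (by omega)]
      exact D_zero L (e v) (e w)
    have h1 : ptW v w h (L + 1) = br w := by
      apply Subtype.ext
      rw [hptW v w h (L + 1) le_rfl]
      exact D_last L (e v) (e w)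
    refine ⟨P.copy h0 h1, ?_, ?_⟩
    · rw [SimpleGraph.Walk.support_copy, hP]
    · rw [SimpleGraph.Walk.edges_copy, hPe]
  choose P hP hPe using hex
  have hmem : ∀ (v w : V) (h : G.Adj v w) (x : W), x ∈ (P v w h).support ↔
      ∃ q, q ≤ L + 1 ∧ x.1 = pt v w q := by
    intro v w h x
    rw [hP, List.mem_map]
    constructor
    · rintro ⟨q, hq, rfl⟩
      rw [List.mem_range] at hq
      exact ⟨q, by omega, hptW v w h q (by omega)⟩
    · rintro ⟨q, hq, hx⟩
      refine ⟨q, List.mem_range.2 (by omega), Subtype.ext ?_⟩
      rw [hptW v w h q hq, hx]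
  have hlen : ∀ (v w : V) (h : G.Adj v w), (P v w h).length = L + 1 := by
    intro v w h
    have h1 := congrArg List.length (hP v w h)
    rw [SimpleGraph.Walk.length_support, List.length_map, List.length_range] at h1
    omega
  let S : Subdivision G :=
    { W := W
      fin := hfin
      H := H₂
      br := br
      P := P
      br_injective := by
        intro u v huv
        have h1 := congrArg Subtype.val huv
        exact e.injective (Sum.inl.inj h1)
      isPath := by
        intro v w h
        rw [SimpleGraph.Walk.isPath_def, hP]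
        apply List.Nodup.map_on
        · intro r hr r' hr' hrr
          rw [List.mem_range] at hr hr'
          have h1 := congrArg Subtype.val hrr
          rw [hptW v w h r (by omega), hptW v w h r' (by omega)] at h1
          exact D_inj L (e v) (e w) (e.injective.ne h.ne) r r' (by omega) (by omega) h1
        · exact List.nodup_range
      reverse := by
        intro v w h
        apply SimpleGraph.Walk.ext_support
        rw [SimpleGraph.Walk.support_reverse, hP, hP]
        apply List.ext_getElem
        · simp
        · intro i h1 h2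
          rw [List.length_map, List.length_range] at h1
          rw [List.getElem_reverse, List.getElem_map, List.getElem_map, List.getElem_range,
            List.getElem_range, List.length_map, List.length_range]
          apply Subtype.ext
          rw [hptW w v h.symm i (by omega), hptW v w h _ (by omega)]
          have e1 : L + 2 - 1 - i = L + 1 - i := by omega
          rw [e1]
          exact D_symm L (e v) (e w) (e.injective.ne h.ne) i (by omega)
      new := by
        intro v w h u hu
        rw [hmem] at hu
        obtain ⟨q, hq, hx⟩ := hu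
        rcases Nat.lt_or_ge L q with h1 | h1
        · obtain rfl : q = L + 1 := by omega
          right
          have h2 : Sum.inl (e u) = pt v w (L + 1) := hx
          simp only [pt, D_last] at h2
          exact e.injective (Sum.inl.inj h2)
        · left
          exact (e.injective (D_eq_inl L (e v) (e w) (e u) q h1 hx.symm).2).symm
      disjoint := by
        intro v w h v' w' h' hne x hx hx'
        rw [hmem] at hx hx'
        obtain ⟨q, hq, hxq⟩ := hx
        obtain ⟨q', hq', hxq'⟩ := hx'
        rcases Nat.eq_zero_or_pos q with h0 | h0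
        · subst h0
          exact ⟨v, Subtype.ext (by rw [hxq]; exact D_zero L (e v) (e w))⟩
        rcases Nat.lt_or_ge L q with h1 | h1
        · obtain rfl : q = L + 1 := by omega
          exact ⟨w, Subtype.ext (by rw [hxq]; exact D_last L (e v) (e w))⟩
        rcases Nat.lt_or_ge L q' with h2 | h2
        · obtain rfl : q' = L + 1 := by omega
          exact ⟨w', Subtype.ext (by rw [hxq']; exact D_last L (e v') (e w'))⟩
        exfalso
        apply hne
        rcases D_det L (e v) (e w) (e v') (e w') q q' h0 h1 h2 (hxq.symm.trans hxq') with h3 | h3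
        · rw [e.injective h3.1, e.injective h3.2.1]
        · rw [e.injective h3.1, e.injective h3.2.1, Sym2.eq_swap]
      vertices := by
        rintro ⟨x, ⟨u, rfl⟩ | ⟨v, w, h, q, hq, rfl⟩⟩
        · exact Or.inl ⟨u, rfl⟩
        · exact Or.inr ⟨v, w, h, (hmem v w h _).2 ⟨q, hq, rfl⟩⟩
      edges := by
        intro x y hxy
        have h1 : (H G' L).Adj x.1 y.1 := hxy
        obtain ⟨v, w, q, hvw, hq, hx, hy⟩ := adj_imp G' L hL x.1 y.1 h1
        have h : G.Adj (e.symm v) (e.symm w) := hvw
        refine ⟨e.symm v, e.symm w, h, ?_⟩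
        rw [hPe, List.mem_map]
        refine ⟨q, List.mem_range.2 (by omega), ?_⟩
        have e1 : ptW _ _ h q = x := by
          apply Subtype.ext
          rw [hptW _ _ h q (by omega), hx]
          simp only [pt, Equiv.apply_symm_apply]
        have e2 : ptW _ _ h (q + 1) = y := by
          apply Subtype.ext
          rw [hptW _ _ h (q + 1) (by omega), hy]
          simp only [pt, Equiv.apply_symm_apply]
        rw [e1, e2] }
  refine ⟨S, ?_, ?_⟩
  · intro v w h
    show (P v w h).length - 1 = L
    rw [hlen]
    rfl
  · refine Nat.sInf_le ⟨fun x => c₂ x.1, ?_⟩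
    rintro ⟨t, ht, v, hinj, hadj, hcol⟩
    exact nonrep_of_walk hc₂ ⟨t, ht, fun i => (v i).1,
      fun i j hi hj hij => hinj i j hi hj (Subtype.ext hij), fun i hi => hadj i hi, hcol⟩

/-- **Theorem.** Let `G` be a finite graph and `2 ^ m ≥ π(G)`. Then `G` has a subdivision with
exactly `2 m + 1` division vertices on every edge and with Thue chromatic number at most `6`. In
particular `G` has a `(≤ 2 ⌈log₂ π(G)⌉ + 1)`-subdivision `G_S` with `π(G_S) ≤ 6`. -/
theorem result :
    (∀ (V : Type) [Finite V] (G : SimpleGraph V) (m : ℕ), thue G ≤ 2 ^ m →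
      ∃ S : Subdivision G, (∀ (v w : V) (h : G.Adj v w), S.division v w h = 2 * m + 1) ∧
        thue S.H ≤ 6) ∧
    ∃ (c : ℕ) (f : ℕ → ℕ), ∀ (V : Type) [Finite V] (G : SimpleGraph V),
      ∃ S : Subdivision G, (∀ (v w : V) (h : G.Adj v w), S.division v w h ≤ f (thue G)) ∧
        thue S.H ≤ c := by
  refine ⟨fun V _ G m hm => main G m hm, 6, fun k => 2 * Nat.clog 2 k + 1, fun V _ G => ?_⟩
  obtain ⟨S, hS, hS'⟩ := main G (Nat.clog 2 (thue G)) (Nat.le_pow_clog one_lt_two _)
  exact ⟨S, fun v w h => (hS v w h).le, hS'⟩

end Pool.Agent.Results.MP_4d584d_co.NonrepetitiveSubdivisions
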